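import Mathlib

set_option autoImplicit false
set_option maxRecDepth 100000

namespace Pool.Agent.Results.MP_7a9eeb_co.Counter
open Classical

/-- the game can be won from every initial labeling: `t u` is the number of toggles of `u` -/
def Winnable {n : ℕ} (l : ℕ) (G : SimpleGraph (Fin n)) : Prop :=
  ∀ f : Fin n → ZMod l, ∃ t : Fin n → ℕ, ∀ v,
    f v + ∑ u, (if u = v ∨ G.Adj u v then (t u : ZMod l) else 0) = 0

/-- the largest number of edges of an always winnable graph on `n` vertices -/
noncomputable def maxE (n l : ℕ) : ℕ :=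
  sSup {m | ∃ G : SimpleGraph (Fin n), Winnable l G ∧ G.edgeSet.ncard = m}

/-- the least `k` with `gcd (n - 2k - 1, l) = 1` -/
noncomputable def kk (n l : ℕ) : ℕ := sInf {k : ℕ | Int.gcd ((n : ℤ) - 2 * k - 1) l = 1}

def H : List (ℕ × ℕ) := [(0, 5), (1, 4), (2, 3), (2, 7), (3, 7), (4, 6), (5, 6), (6, 7), (8, 9), (10, 11)]

def ad (a b : Fin 12) : Bool := a != b && !H.contains (a.1, b.1) && !H.contains (b.1, a.1)

def G : SimpleGraph (Fin 12) where
  Adj a b := ad a b = true
  symm := ⟨by decide +kernel⟩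
  loopless := ⟨by decide +kernel⟩

instance : DecidableRel G.Adj := fun a b => inferInstanceAs (Decidable (ad a b = true))

def B (a b : Fin 12) : ZMod 2310 := ((([[710, 710, 355, 355, 178, 177, 1778, 2133, 178, 178, 178, 178], [710, 710, 355, 355, 177, 178, 1778, 2133, 178, 178, 178, 178], [355, 355, 178, 177, 1244, 1244, 889, 1066, 1244, 1244, 1244, 1244], [355, 355, 177, 178, 1244, 1244, 889, 1066, 1244, 1244, 1244, 1244], [178, 177, 1244, 1244, 1777, 1777, 1599, 533, 1777, 1777, 1777, 1777], [177, 178, 1244, 1244, 1777, 1777, 1599, 533, 1777, 1777, 1777, 1777], [1778, 1778, 889, 889, 1599, 1599, 2131, 710, 1599, 1599, 1599, 1599], [2133, 2133, 1066, 1066, 533, 533, 710, 1777, 533, 533, 533, 533], [178, 178, 1244, 1244, 1777, 1777, 1599, 533, 1777, 1776, 1777, 1777], [178, 178, 1244, 1244, 1777, 1777, 1599, 533, 1776, 1777, 1777, 1777], [178, 178, 1244, 1244, 1777, 1777, 1599, 533, 1777, 1777, 1777, 1776], [178, 178, 1244, 1244, 1777, 1777, 1599, 533, 1777, 1777, 1776, 1777]] : List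 (List ℕ)).getD a.1 []).getD b.1 0 : ℕ)

def N (v u : Fin 12) : ZMod 2310 := if u = v ∨ ad u v = true then 1 else 0

lemma NB : ∀ v w : Fin 12, ∑ u, N v u * B u w = if v = w then 1 else 0 := by decide +kernel

lemma win : Winnable 2310 G := by
  intro f
  refine ⟨fun u => (-∑ w, B u w * f w).val, fun v => ?_⟩
  have e : ∀ u (i : Decidable (u = v ∨ G.Adj u v)),
      (if u = v ∨ G.Adj u v then (((-∑ w, B u w * f w).val : ℕ) : ZMod 2310) else 0) =
      -∑ w, N v u * B u w * f w := by
    intro u i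
    by_cases h : u = v ∨ ad u v = true
    · rw [if_pos (show u = v ∨ G.Adj u v from h), ZMod.natCast_zmod_val]
      simp only [N, if_pos h, one_mul]
    · rw [if_neg (show ¬ (u = v ∨ G.Adj u v) from h)]
      simp only [N, if_neg h, zero_mul, Finset.sum_const_zero, neg_zero]
  refine Eq.trans (congrArg (f v + ·) (Finset.sum_congr rfl fun u _ => e u _)) ?_
  rw [Finset.sum_neg_distrib, Finset.sum_comm]
  simp only [← Finset.sum_mul, NB]
  simp

lemma edges : G.edgeSet.ncard = 56 := by
  have h := G.sum_degrees_eq_twice_card_edges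
  have h2 : ∑ v, G.degree v = 112 := by decide +kernel
  rw [← SimpleGraph.coe_edgeFinset, Set.ncard_coe_finset]
  omega

theorem result : kk 12 2310 = 5 ∧ Nat.choose 12 2 - (12 / 2 + kk 12 2310) < maxE 12 2310 ∧
    ¬ ∀ n l : ℕ, 2 ≤ n → 2 ≤ l → Even n → Even l → 4 ≤ kk n l →
      maxE n l = Nat.choose n 2 - (n / 2 + kk n l) := by
  have k5 : kk 12 2310 = 5 := by
    refine IsLeast.csInf_eq ⟨by decide +kernel, fun k hk => ?_⟩
    by_contra h
    have : k < 5 := by omega
    revert hk
    interval_cases k <;> decide +kernel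
  have m : 56 ≤ maxE 12 2310 := by
    refine le_csSup ⟨Nat.card (Sym2 (Fin 12)), ?_⟩ ⟨G, win, edges⟩
    rintro m ⟨X, -, rfl⟩
    exact Set.ncard_le_card _
  have c : Nat.choose 12 2 = 66 := by decide
  refine ⟨k5, by omega, fun h => ?_⟩
  have := h 12 2310 (by norm_num) (by norm_num) (by decide) (by decide) (by omega)
  omega

end Pool.Agent.Results.MP_7a9eeb_co.Counter
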